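import Mathlib
import Pool.Agent.Q180.UV.Stm2
import Pool.Agent.Q180.WT.Core
import Pool.Agent.Q280.D3.Wgt
import Pool.Agent.Y4.K.Char
import Pool.Agent.Y4.K.Div

/-!
# Project UV, job UV6 K4: transport of the codimension two condition
-/

set_option autoImplicit false

namespace Pool.Agent.Q177.UV.K4

open Matrix Module Polynomial Pool.Agent.H204R3.CM Pool.Agent.H204R3.SP Pool.Agent.W437.HC
  Pool.Agent.W437.HD Pool.Agent.W437.HP Pool.Agent.W437.HR
open Pool.Agent.Q60.D3 (AV IsHom IsCM IsSimple HasWeight cxM)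
open Pool.Agent.Y4.K (Pol Pr mu Eqv Iso)
open Pool.Agent.Y4.K (br br_br br_mul' br_add br_smul T_Om)
open Pool.Agent.Y4.G (Nil im Lie)
open Pool.Agent.Y4.H (LZ Ct D_mem_LZ Dσ_mem_LZ)
open Pool.Agent.Q180.UV
open Pool.Agent.Q180.WT (hasWeight_comp)
open Pool.Agent.W548.Odd (rational_induction)

/-- The coefficients of a rational form of weight zero. -/
theorem isH_of_wt {g : ℕ} {Z : Matrix (Fin g) (Fin g) ℂ} (hY : IsUnit (imM Z).det) {κ : Type}
    [Fintype κ] [DecidableEq κ] {β : MultilinearMap ℚ (fun _ : κ => Fin g ⊕ Fin g → ℚ) ℚ}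
    (hβ : HasWeight (perOne Z) (cxM β) 0) :
    IsH (DZ Z) fun I : κ → Fin g ⊕ Fin g => β fun k => Pi.single (I k) 1 := by
  obtain ⟨ψ, hψ1, hψ2⟩ := hβ
  obtain ⟨c, hc⟩ : ∃ c : (κ → Fin g ⊕ Fin g) → ℚ, c = fun I => β fun k => Pi.single (I k) 1 :=
    ⟨_, rfl⟩
  rw [← hc]
  have h1 : ∀ x : κ → Fin g ⊕ Fin g → ℝ,
      (ψ (fun k => perR Z (x k))).re = evalF (cst ℝ c) x := by
    let ψ' : MultilinearMap ℝ (fun _ : κ => Fin g ⊕ Fin g → ℝ) ℝ :=
      (Complex.reCLM.toLinearMap).compMultilinearMap (ψ.compLinearMap fun _ => perR Z)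
    have h2 : ψ' = evalM (cst ℝ c) := by
      refine Module.Basis.ext_multilinear (fun _ => Pi.basisFun ℝ (Fin g ⊕ Fin g)) fun I => ?_
      simp only [Pi.basisFun_apply]
      rw [evalM_apply, evalF_single]
      change (ψ (fun k => perR Z (Pi.single (I k) 1))).re = ((c I : ℚ) : ℝ)
      have h3 : ∀ k, perR Z (Pi.single (I k) 1) = perOne Z (Pi.single (I k) 1) := by
        intro k
        have h4 : (Pi.single (I k) 1 : Fin g ⊕ Fin g → ℝ) =
            fun i => (((Pi.single (I k) 1 : Fin g ⊕ Fin g → ℚ) i : ℚ) : ℝ) := by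
          funext i
          by_cases hi : i = I k
          · rw [hi, Pi.single_eq_same, Pi.single_eq_same, Rat.cast_one]
          · rw [Pi.single_eq_of_ne hi, Pi.single_eq_of_ne hi, Rat.cast_zero]
        rw [h4]
        funext i
        simp [perR, perOne]
      have h5 : (fun k => perR Z (Pi.single (I k) 1)) =
          fun k => perOne Z (Pi.single (I k) 1) := funext h3
      rw [h5, hψ1, hc]
      change (((β _ : ℚ) : ℂ)).re = ((β _ : ℚ) : ℝ)
      simp
    intro x
    exact congrArg (fun F => F x) h2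
  have h3 : act (JR Z) (cst ℝ c) = 0 := by
    apply act_of_rotate
    intro θ x
    rw [← h1, ← h1]
    congr 1
    have h4 := hψ2 (Complex.cos θ + Complex.sin θ * Complex.I) (by
      rw [← Complex.exp_mul_I, Complex.norm_exp_ofReal_mul_I]) (fun k => perR Z (x k))
    rw [zpow_zero, one_mul] at h4
    rw [← h4]
    congr 1
    funext k
    rw [perR_rotate Z hY]
  unfold IsH DZ
  rw [act_smul_left]
  have h4 : act ((JR Z).map (fun x : ℝ => (x : ℂ))) (cst ℂ c) = 0 := by
    funext I
    have h5 := congrFun h3 I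
    simp only [act, cst, Matrix.map_apply, Pi.zero_apply] at h5 ⊢
    exact_mod_cast h5
  rw [h4, smul_zero]

/-- A multilinear form is determined by its coefficients. -/
theorem eq_evalF {B κ : Type} [Fintype B] [DecidableEq B] [Fintype κ] [DecidableEq κ]
    (β : MultilinearMap ℚ (fun _ : κ => B → ℚ) ℚ) (x : κ → B → ℚ) :
    β x = evalF (fun I => β fun k => Pi.single (I k) 1) x := by
  have h : β = evalM (fun I => β fun k => Pi.single (I k) 1) := by
    refine Module.Basis.ext_multilinear (fun _ => Pi.basisFun ℚ B) fun I => ?_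
    simp only [Pi.basisFun_apply]
    rw [evalM_apply, evalF_single]
  exact congrArg (fun F => F x) h

theorem symp_comm {g : ℕ} {Z : Matrix (Fin g) (Fin g) ℂ} (M : Pol Z)
    {b : Matrix (Fin g ⊕ Fin g) (Fin g ⊕ Fin g) ℚ}
    (h : (DZ Z)ᵀ * cK ℂ b + cK ℂ b * DZ Z = 0) :
    ∃ c : Matrix (Fin g ⊕ Fin g) (Fin g ⊕ Fin g) ℚ, Ct Z (cK ℂ c) ∧
      cK ℂ b = Om g ℂ * cK ℂ c := by
  obtain ⟨c, hc⟩ : ∃ c, c = -(Om g ℚ * b) := ⟨_, rfl⟩
  have hOm : cK ℂ (Om g ℚ) = Om g ℂ := by
    ext i j
    rcases i with i | i <;> rcases j with j | j <;>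
      simp [cK, Om, Matrix.one_apply, Matrix.fromBlocks, apply_ite]
  have hcK : cK ℂ c = -(Om g ℂ * cK ℂ b) := by
    rw [hc]
    have h1 : cK ℂ (-(Om g ℚ * b)) = -cK ℂ (Om g ℚ * b) := by
      ext i j
      simp [cK]
    rw [h1, cK_mul, hOm]
  have hb : cK ℂ b = Om g ℂ * cK ℂ c := by
    rw [hcK, mul_neg, ← mul_assoc, Om_sq, neg_one_mul, neg_neg]
  refine ⟨c, ?_, hb⟩
  have h2 : Om g ℂ * (cK ℂ c * DZ Z - DZ Z * cK ℂ c) = 0 := by
    have h3 : (DZ Z)ᵀ * Om g ℂ = -(Om g ℂ * DZ Z) := by
      have e0 : Om g ℂ * Om g ℂ = -1 := Om_sq ℂ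
      have e1 : Om g ℂ * (DZ Z)ᵀ = -(DZ Z * Om g ℂ) := M.Om_LT D_mem_LZ
      calc (DZ Z)ᵀ * Om g ℂ = -((Om g ℂ * Om g ℂ) * (DZ Z)ᵀ * Om g ℂ) := by
            rw [e0]
            noncomm_ring
        _ = -(Om g ℂ * (Om g ℂ * (DZ Z)ᵀ) * Om g ℂ) := by noncomm_ring
        _ = Om g ℂ * DZ Z * (Om g ℂ * Om g ℂ) := by
            rw [e1]
            noncomm_ring
        _ = -(Om g ℂ * DZ Z) := by rw [e0, mul_neg_one]
    rw [hb] at h
    rw [mul_sub, ← mul_assoc, ← mul_assoc]
    have h4 : (DZ Z)ᵀ * (Om g ℂ * cK ℂ c) = -(Om g ℂ * DZ Z * cK ℂ c) := by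
      rw [← mul_assoc, h3, neg_mul]
    rw [h4] at h
    rw [← h]
    abel
  have h5 : cK ℂ c * DZ Z - DZ Z * cK ℂ c = 0 := by
    have h6 := congrArg (fun Y => Om g ℂ * Y) h2
    simp only [mul_zero] at h6
    rw [← mul_assoc, Om_sq, neg_one_mul] at h6
    exact neg_eq_zero.1 h6
  exact M.Ct_of_endo (Pool.Agent.W437.HQ.endo_of_comm M.isUnit (sub_eq_zero.1 h5))

theorem k4 : S_k4 := by
  intro A g Z e C hZ hpos hper hLef
  have M : Pol Z := ⟨hZ, hpos⟩
  have hY : IsUnit (imM Z).det := hpos.isUnit.map Matrix.detMonoidHom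
  have hper' : ∀ w, C.symm (perOne Z w) = A.per (e.symm w) := by
    intro w
    rw [LinearEquiv.symm_apply_eq, hper, LinearEquiv.apply_symm_apply]
  intro N hN c hc
  let S : Submodule ℂ (Matrix (Fin g ⊕ Fin g) (Fin g ⊕ Fin g) ℂ) :=
    { carrier := {N | InS Z N}
      zero_mem' := ⟨fun c _ => by rw [zero_mul, mul_zero], by simp,
        fun c _ => by rw [zero_mul, trace_zero]⟩
      add_mem' := fun {a b} ha hb => ⟨fun c hc => by rw [add_mul, mul_add, ha.1 c hc, hb.1 c hc],
        by
          have h1 := ha.2.1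
          have h2 := hb.2.1
          rw [transpose_add, add_mul, mul_add]
          calc _ = (aᵀ * Om g ℂ + Om g ℂ * a) + (bᵀ * Om g ℂ + Om g ℂ * b) := by abel
            _ = 0 := by rw [h1, h2, add_zero],
        fun c hc => by rw [add_mul, trace_add, ha.2.2 c hc, hb.2.2 c hc, add_zero]⟩
      smul_mem' := fun r a ha => ⟨fun c hc => by
          rw [Matrix.smul_mul, Matrix.mul_smul, ha.1 c hc],
        by
          have h1 := ha.2.1
          rw [transpose_smul, Matrix.smul_mul, Matrix.mul_smul, ← smul_add, h1, smul_zero],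
        fun c hc => by rw [Matrix.smul_mul, trace_smul, ha.2.2 c hc, smul_zero]⟩ }
  have key : ∀ Y ∈ S, act Y (cst ℂ c) = 0 := by
    refine rational_induction S ?_ ?_ (act_zero_left _) ?_ ?_
    · intro σ X hX
      have h0 : ∀ d : Matrix (Fin g ⊕ Fin g) (Fin g ⊕ Fin g) ℂ,
          (d.map (σ.symm : ℂ ≃+* ℂ)).map (σ : ℂ →+* ℂ) = d := by
        intro d
        ext i j
        simp
      refine ⟨fun d hd => ?_, ?_, fun d hd => ?_⟩
      · have h1 := hX.1 _ (Pool.Agent.W548.Odd.InCm.aut hd σ.symm)
        have h2 := congrArg (fun Y : Matrix _ _ ℂ => Y.map (σ : ℂ →+* ℂ)) h1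
        simp only [Matrix.map_mul] at h2
        rw [h0] at h2
        exact h2
      · have h2 := congrArg (fun Y : Matrix _ _ ℂ => Y.map (σ : ℂ →+* ℂ)) hX.2.1
        have h3 : ∀ a b : Matrix (Fin g ⊕ Fin g) (Fin g ⊕ Fin g) ℂ,
            (a + b).map (σ : ℂ →+* ℂ) = a.map (σ : ℂ →+* ℂ) + b.map (σ : ℂ →+* ℂ) := by
          intro a b
          ext i j
          simp
        have h4 : (0 : Matrix (Fin g ⊕ Fin g) (Fin g ⊕ Fin g) ℂ).map (σ : ℂ →+* ℂ) = 0 := by
          ext i j
          simp
        simp only [h3, h4, Matrix.map_mul, Om_aut, ← transpose_map] at h2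
        exact h2
      · have h1 := hX.2.2 _ (Pool.Agent.W548.Odd.InCm.aut hd σ.symm)
        have h2 : trace ((X.map (σ : ℂ →+* ℂ)) * d) =
            σ (trace (X * d.map (σ.symm : ℂ ≃+* ℂ))) := by
          have h3 : (X.map (σ : ℂ →+* ℂ)) * d =
              (X * d.map (σ.symm : ℂ ≃+* ℂ)).map (σ : ℂ →+* ℂ) := by
            rw [Matrix.map_mul, h0]
          rw [h3]
          simp only [trace, Matrix.diag_apply, Matrix.map_apply, map_sum]
          rfl
        change trace ((X.map (σ : ℂ →+* ℂ)) * d) = 0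
        rw [h2, h1, map_zero]
    · intro u hu
      change InS Z (cK ℂ u) at hu
      change act (cK ℂ u) (cst ℂ c) = 0
      -- the endomorphism
      obtain ⟨X, hX⟩ : ∃ X : A.H →ₗ[ℚ] A.H,
          X = e.symm.toLinearMap ∘ₗ (mulVecLin u) ∘ₗ e.toLinearMap := ⟨_, rfl⟩
      have hXe : ∀ w, e (X w) = u *ᵥ e w := by
        intro w
        rw [hX]
        change e (e.symm (u *ᵥ e w)) = _
        rw [LinearEquiv.apply_symm_apply]
      have hDL : IsDL A X := by
        refine ⟨fun β hβ v => ?_, fun h hh => ?_⟩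
        · have h1 : HasWeight (perOne Z) (cxM (β.compLinearMap fun _ => e.symm.toLinearMap)) 0 :=
            hasWeight_comp e.symm.toLinearMap C.symm.toLinearMap hper' hβ
          have h2 := isH_of_wt hY h1
          obtain ⟨b, hb⟩ : ∃ b : Matrix (Fin g ⊕ Fin g) (Fin g ⊕ Fin g) ℚ, b = Matrix.of
              fun i j => (β.compLinearMap fun _ => e.symm.toLinearMap)
                ![Pi.single i 1, Pi.single j 1] := ⟨_, rfl⟩
          have h3 : (fun I : Fin 2 → Fin g ⊕ Fin g =>
              (β.compLinearMap fun _ => e.symm.toLinearMap) fun k => Pi.single (I k) 1) =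
              bilc b := by
            funext I
            rw [hb]
            change _ = (β.compLinearMap fun _ => e.symm.toLinearMap)
              ![Pi.single (I 0) 1, Pi.single (I 1) 1]
            congr 1
            funext k
            fin_cases k <;> rfl
          rw [h3] at h2
          have h4 : (DZ Z)ᵀ * cK ℂ b + cK ℂ b * DZ Z = 0 := by
            ext i j
            have h5 := congrFun h2 ![i, j]
            have h6 : cst ℂ (bilc b) = bilc (cK ℂ b) := rfl
            rw [h6, act_bilc] at h5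
            exact h5
          obtain ⟨d, hd, hbd⟩ := symp_comm M h4
          have h5 : (cK ℂ u)ᵀ * cK ℂ b + cK ℂ b * cK ℂ u = 0 := by
            rw [hbd, mul_assoc, ← hu.1 _ hd, ← mul_assoc, ← mul_assoc, ← add_mul, hu.2.1,
              zero_mul]
          have h6 : act u (bilc b) = 0 := by
            apply cst_injective (K := ℂ)
            rw [← act_cst, cst_zero]
            funext I
            change act (cK ℂ u) (bilc (cK ℂ b)) I = _
            rw [act_bilc, h5]
            rfl
          have h7 := evalF_act u (bilc b) (fun k => e (v k))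
          rw [h6, evalF_zero] at h7
          rw [h7]
          refine Finset.sum_congr rfl fun k _ => ?_
          rw [← h3, ← eq_evalF]
          change _ = β fun l => e.symm (Function.update (fun k => e (v k)) k (u *ᵥ e (v k)) l)
          congr 1
          funext l
          by_cases hl : l = k
          · subst hl
            rw [Function.update_self, Function.update_self, ← hXe, LinearEquiv.symm_apply_apply]
          · rw [Function.update_of_ne hl, Function.update_of_ne hl,
              LinearEquiv.symm_apply_apply]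
        · obtain ⟨hm, h1, -, h2, -, -⟩ := transport A g Z e C hpos hper h hh
          have h3 : Ct Z (cK ℂ hm) :=
            M.Ct_of_endo (Pool.Agent.W437.HQ.endo_of_comm M.isUnit h2)
          have h4 := hu.2.2 _ h3
          have h5 : trace (u * hm) = 0 := by
            rw [← cK_mul] at h4
            have h6 : trace (cK ℂ (u * hm)) = ((trace (u * hm) : ℚ) : ℂ) := by
              simp [trace, cK]
            rw [h6] at h4
            exact_mod_cast h4
          have h7 : X ∘ₗ h = e.symm.toLinearMap ∘ₗ (mulVecLin (u * hm)) ∘ₗ e.toLinearMap := by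
            apply LinearMap.ext
            intro w
            apply e.injective
            change e (X (h w)) = e (e.symm ((u * hm) *ᵥ e w))
            rw [hXe, ← h1, mulVec_mulVec, LinearEquiv.apply_symm_apply]
          have h8 : LinearMap.trace ℚ A.H (X ∘ₗ h) =
              LinearMap.trace ℚ (Fin g ⊕ Fin g → ℚ) (mulVecLin (u * hm)) := by
            rw [h7]
            have h9 := LinearMap.trace_conj' (mulVecLin (u * hm)) e.symm
            rw [← h9]
            rfl
          rw [h8]
          have h10 := Matrix.trace_toLin'_eq (u * hm)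
          rw [← h5, ← h10]
          rfl
      -- the tensor
      have hw : HasWeight A.per (cxM ((evalM c).compLinearMap fun _ => e.toLinearMap)) 0 := by
        refine hasWeight_comp (F := cxM (evalM c)) e.toLinearMap C.toLinearMap hper ?_
        refine Pool.Agent.Q280.D3.wgt g Z hpos (Fin 4) (cxM (evalM c)) 0 ?_
        have h1 : (fun I : Fin 4 → Fin g ⊕ Fin g =>
            (cxM (evalM c)) fun k => Pi.single (I k) 1) = cst ℂ c := by
          funext I
          change ((evalM c (fun k => Pi.single (I k) 1) : ℚ) : ℂ) = ((c I : ℚ) : ℂ)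
          rw [evalM_apply, evalF_single]
        rw [h1, Int.cast_zero, zero_smul]
        exact hc
      have h1 := hLef X hDL _ hw
      have h2 : act u c = 0 := by
        apply eq_zero_of_evalF
        intro x
        rw [evalF_act, ← h1 fun k => e.symm (x k)]
        refine Finset.sum_congr rfl fun k _ => ?_
        change _ = evalF c fun l => e (Function.update (fun k => e.symm (x k)) k
          (X (e.symm (x k))) l)
        congr 1
        funext l
        by_cases hl : l = k
        · subst hl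
          rw [Function.update_self, Function.update_self, hXe, LinearEquiv.apply_symm_apply]
        · rw [Function.update_of_ne hl, Function.update_of_ne hl, LinearEquiv.apply_symm_apply]
      have h3 := act_cst (K := ℂ) u c
      rw [h2, cst_zero] at h3
      exact h3
    · intro X Y hX hY
      rw [act_add_left, hX, hY, add_zero]
    · intro r X hX
      rw [act_smul_left, hX, smul_zero]
  exact key N hN

end Pool.Agent.Q177.UV.K4
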