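import Mathlib
import Pool.Agent.Q180.UV.Stm2
import Pool.Agent.Y4.K.Char
import Pool.Agent.Y4.K.Div

/-!
# Project UV, job UV7 MEMU: unitary type, full places
-/

set_option autoImplicit false

namespace Pool.Agent.Q177.UV.MEMU

open Matrix Module Polynomial Pool.Agent.H204R3.CM Pool.Agent.H204R3.SP Pool.Agent.W437.HC
  Pool.Agent.W437.HD Pool.Agent.W437.HP Pool.Agent.W437.HR
open Pool.Agent.Y4.K (Pol Pr mu Eqv Iso)
open Pool.Agent.Y4.K (br br_br br_mul' br_add br_smul T_Om)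
open Pool.Agent.Y4.G (Nil im Lie)
open Pool.Agent.Y4.H (LZ Ct D_mem_LZ Dσ_mem_LZ)
open Pool.Agent.Q180.UV

variable {g : ℕ} {Z : Matrix (Fin g) (Fin g) ℂ}

theorem br_sub (a b : Matrix (Fin g ⊕ Fin g) (Fin g ⊕ Fin g) ℂ) : br (a - b) = br a - br b := by
  unfold Pool.Agent.Y4.K.br
  rw [transpose_sub]
  noncomm_ring

theorem trace_br (a : Matrix (Fin g ⊕ Fin g) (Fin g ⊕ Fin g) ℂ) : trace (br a) = trace a := by
  unfold Pool.Agent.Y4.K.br
  rw [trace_neg, trace_mul_comm, ← mul_assoc, Om_sq, neg_one_mul, trace_neg, neg_neg,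
    trace_transpose]

/-- JOB UV7 MEMU. -/
theorem memu : S_memu := by
  intro g Z M P φm hP hφP hns hend hMem φ μ hμ hφμ
  -- the rational elements of the commutant
  have hrat : ∀ ψ N, Pool.Agent.W437.HQ.IsEndo Z ψ N → ∃ q : ℚ[X], ψ = aeval φm q := by
    intro ψ N h
    exact hend ψ (Pool.Agent.W437.HQ.endo_comm M.isUnit h)
  -- commutativity
  have hcomm : ∀ x, Ct Z x → ∀ y, Ct Z y → x * y = y * x := by
    refine M.Ct_induction ?_ ?_ ?_ ?_
    · intro ψ N h
      refine M.Ct_induction ?_ ?_ ?_ ?_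
      · intro ψ' N' h'
        obtain ⟨q, rfl⟩ := hrat ψ N h
        obtain ⟨q', rfl⟩ := hrat ψ' N' h'
        rw [← Pool.Agent.W437.HQ.cq_mul, ← Pool.Agent.W437.HQ.cq_mul, ← map_mul, ← map_mul,
          mul_comm]
      · rw [mul_zero, zero_mul]
      · intro X Y hX hY
        rw [mul_add, add_mul, hX, hY]
      · intro c X hX
        rw [Matrix.mul_smul, Matrix.smul_mul, hX]
    · intro y _
      rw [mul_zero, zero_mul]
    · intro X Y hX hY y hy
      rw [mul_add, add_mul, hX y hy, hY y hy]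
    · intro c X hX y hy
      rw [Matrix.mul_smul, Matrix.smul_mul, hX y hy]
  -- scalars
  have hsc : ∀ x, Ct Z x → ∃ lam : ℂ, x * φ.e = lam • φ.e ∧ φ.e * x = lam • φ.e := by
    intro x hx
    obtain ⟨lam, hlam⟩ := φ.prim x hx
    have h1 : x * φ.e = lam • φ.e := by
      rw [← hlam, ← hcomm x hx φ.e φ.mem, mul_assoc, φ.idem]
    exact ⟨lam, h1, by rw [← hcomm x hx φ.e φ.mem, h1]⟩
  -- the other idempotent
  have hbar : (M.bar φ).e = φ.e.map (starRingEnd ℂ) := by
    obtain ⟨a, b, h⟩ := M.act_conj φ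
    have h1 : a * b = b * a := hcomm a h.ca b h.cb
    rw [h.ab, h.ba] at h1
    rw [h1]
    rfl
  have hbm : cK ℂ φm * (M.bar φ).e = (starRingEnd ℂ μ) • (M.bar φ).e := by
    rw [hbar]
    have h1 := congrArg (fun Y : Matrix _ _ ℂ => Y.map (starRingEnd ℂ)) hφμ
    simp only [Matrix.map_mul] at h1
    have h2 : (cK ℂ φm).map (starRingEnd ℂ) = cK ℂ φm := by
      ext i j
      simp [cK]
    rw [h2] at h1
    rw [h1]
    ext i j
    simp
  have hzero : (M.bar φ).e * φ.e = 0 := by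
    have h1 : cK ℂ φm * ((M.bar φ).e * φ.e) = (starRingEnd ℂ μ) • ((M.bar φ).e * φ.e) := by
      rw [← mul_assoc, hbm, Matrix.smul_mul]
    have h2 : cK ℂ φm * ((M.bar φ).e * φ.e) = μ • ((M.bar φ).e * φ.e) := by
      rw [hcomm _ (M.bar φ).mem _ φ.mem, ← mul_assoc, hφμ, Matrix.smul_mul]
    rw [h1] at h2
    have h3 : (starRingEnd ℂ μ - μ) • ((M.bar φ).e * φ.e) = 0 := by
      rw [sub_smul, h2, sub_self]
    exact (smul_eq_zero.1 h3).resolve_left (sub_ne_zero.2 (hns μ hμ))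
  intro v l hv hl hlv
  obtain ⟨c, hc⟩ : ∃ c, c = vecMulVec v l := ⟨_, rfl⟩
  have hec : φ.e * c = c := by rw [hc, mul_vecMulVec, hv]
  have hce : c * φ.e = c := by rw [hc, vecMulVec_mul, hl]
  have htc : trace c = 0 := by
    rw [hc, trace_vecMulVec, dotProduct_comm, hlv]
  have hcx : ∀ x, Ct Z x → c * x = x * c ∧ trace (c * x) = 0 := by
    intro x hx
    obtain ⟨lam, h1, h2⟩ := hsc x hx
    have h3 : c * x = lam • c := by
      calc c * x = c * (φ.e * x) := by rw [← mul_assoc, hce]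
        _ = lam • c := by rw [h2, Matrix.mul_smul, hce]
    have h4 : x * c = lam • c := by
      calc x * c = x * φ.e * c := by rw [mul_assoc, hec]
        _ = lam • c := by rw [h1, Matrix.smul_mul, hec]
    exact ⟨by rw [h3, h4], by rw [h3, trace_smul, htc, smul_zero]⟩
  have hbx : ∀ x, Ct Z x → Ct Z (br x) := fun x hx => M.bar_mem hx
  have hbrx : ∀ x, Ct Z x → br c * x = br (br x * c) := by
    intro x hx
    rw [br_mul', br_br]
  have hIn : InS Z (c - br c) := by
    refine ⟨fun x hx => ?_, ?_, fun x hx => ?_⟩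
    · have h1 : br c * x = x * br c := by
        rw [hbrx x hx, ← (hcx (br x) (hbx x hx)).1, br_mul', br_br]
      rw [sub_mul, mul_sub, (hcx x hx).1, h1]
    · rw [T_Om, br_sub, br_br]
      noncomm_ring
    · rw [sub_mul, trace_sub, (hcx x hx).2, hbrx x hx, trace_br,
        ← (hcx (br x) (hbx x hx)).1, (hcx (br x) (hbx x hx)).2, sub_zero]
  refine ⟨c - br c, hMem _ hIn, ?_⟩
  have h1 : br c * φ.e = 0 := by
    have h2 : br c = br c * br φ.e := by
      rw [← br_mul', hec]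
    have h3 : br φ.e * φ.e = 0 := hzero
    rw [h2, mul_assoc, h3, mul_zero]
  rw [sub_mul, h1, sub_zero, hce, hc]

end Pool.Agent.Q177.UV.MEMU
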